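import Pool.Agent.helper17.CH.SpecW

/-!
# Project CH (MP_5628fe_nt), row CCB
-/

set_option autoImplicit false

namespace Pool.Agent.CH

open Finset MeasureTheory

private lemma CCB_mem (n j : ℕ) (hn : 1 ≤ n) (hj : 1 ≤ j) :
    j ∈ Win n ↔ Real.log j ∈ Set.Ioc (3 * Real.log n) (3 * Real.log ((n : ℝ) + 1)) := by
  have hn0 : (0 : ℝ) < n := by exact_mod_cast hn
  have hj0 : (0 : ℝ) < j := by exact_mod_cast hj
  unfold Win
  rw [mem_Ioc, Set.mem_Ioc]
  have e1 : 3 * Real.log n = Real.log ((n : ℝ) ^ 3) := by rw [Real.log_pow]; push_cast; ring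
  have e2 : 3 * Real.log ((n : ℝ) + 1) = Real.log (((n : ℝ) + 1) ^ 3) := by
    rw [Real.log_pow]; push_cast; ring
  rw [e1, e2, Real.log_lt_log_iff (by positivity) hj0, Real.log_le_log_iff hj0 (by positivity)]
  constructor
  · rintro ⟨h1, h2⟩
    exact ⟨by exact_mod_cast h1, by exact_mod_cast h2⟩
  · rintro ⟨h1, h2⟩
    exact ⟨by exact_mod_cast h1, by exact_mod_cast h2⟩

private lemma CCB_one (N : ℕ) (c : ℕ → ℝ) (j : ℕ) (hj : 1 ≤ j) : cc N c j = CC N c (Real.log j) := by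
  unfold cc CC
  refine Finset.sum_congr rfl fun n hn => ?_
  have hn1 : 1 ≤ n := by
    rw [mem_Ico] at hn
    omega
  rw [Set.indicator_apply]
  exact if_congr (CCB_mem n j hn1 hj) rfl rfl

private lemma CCB_uniq (n n' : ℕ) (v : ℝ) (hn : 1 ≤ n) (hn' : 1 ≤ n')
    (h : v ∈ Set.Ioc (3 * Real.log n) (3 * Real.log ((n : ℝ) + 1)))
    (h' : v ∈ Set.Ioc (3 * Real.log n') (3 * Real.log ((n' : ℝ) + 1))) : n = n' := by
  have hn0 : (0 : ℝ) < n := by exact_mod_cast hn
  have hn0' : (0 : ℝ) < n' := by exact_mod_cast hn'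
  rw [Set.mem_Ioc] at h h'
  have h1 : Real.log n < Real.log ((n' : ℝ) + 1) := by linarith [h.1, h'.2]
  have h2 : Real.log n' < Real.log ((n : ℝ) + 1) := by linarith [h'.1, h.2]
  rw [Real.log_lt_log_iff hn0 (by positivity)] at h1
  rw [Real.log_lt_log_iff hn0' (by positivity)] at h2
  have h3 : n < n' + 1 := by exact_mod_cast h1
  have h4 : n' < n + 1 := by exact_mod_cast h2
  omega

private lemma CCB_val (N : ℕ) (c : ℕ → ℝ) (v : ℝ) : CC N c v = 0 ∨
    ∃ n ∈ Ico N (2 * N), v ∈ Set.Ioc (3 * Real.log n) (3 * Real.log ((n : ℝ) + 1)) ∧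
      CC N c v = c n := by
  by_cases h : ∃ n ∈ Ico N (2 * N), v ∈ Set.Ioc (3 * Real.log n) (3 * Real.log ((n : ℝ) + 1))
  · obtain ⟨n, hn, hv⟩ := h
    right
    refine ⟨n, hn, hv, ?_⟩
    unfold CC
    rw [Finset.sum_eq_single n]
    · rw [Set.indicator_of_mem hv]
    · intro m hm hmn
      apply Set.indicator_of_notMem
      intro hv'
      apply hmn
      rw [mem_Ico] at hm hn
      exact CCB_uniq m n v (by omega) (by omega) hv' hv
    · intro h'
      exact absurd hn h'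
  · left
    push Not at h
    unfold CC
    exact Finset.sum_eq_zero fun n hn => Set.indicator_of_notMem (h n hn) _

private lemma CCB_abs (N : ℕ) (c : ℕ → ℝ) (hc : ∀ n, |c n| ≤ 1) (v : ℝ) : |CC N c v| ≤ 1 := by
  rcases CCB_val N c v with h | ⟨n, _, _, h⟩
  · rw [h]; simp
  · rw [h]; exact hc n

private lemma CCB_supp (N : ℕ) (c : ℕ → ℝ) (v : ℝ) (hv : CC N c v ≠ 0) :
    3 * Real.log N < v ∧ v ≤ 3 * Real.log (2 * N) := by
  rcases CCB_val N c v with h | ⟨n, hn, hv', _⟩
  · exact absurd h hv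
  · rw [mem_Ico] at hn
    have hN : 1 ≤ N := by omega
    have hN0 : (0 : ℝ) < N := by exact_mod_cast hN
    have hn1 : (N : ℝ) ≤ n := by exact_mod_cast hn.1
    have hn2 : (n : ℝ) + 1 ≤ 2 * N := by
      have : n + 1 ≤ 2 * N := by omega
      exact_mod_cast this
    have h1 : Real.log N ≤ Real.log n := Real.log_le_log hN0 hn1
    have h2 : Real.log ((n : ℝ) + 1) ≤ Real.log (2 * N) := Real.log_le_log (by positivity) hn2
    rw [Set.mem_Ioc] at hv'
    constructor <;> linarith [hv'.1, hv'.2]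

private lemma CCB_int (N : ℕ) (c : ℕ → ℝ) : Integrable (CC N c) := by
  unfold CC
  apply integrable_finsetSum
  intro n _
  refine IntegrableOn.integrable_indicator ?_ measurableSet_Ioc
  exact integrableOn_const (by rw [Real.volume_Ioc]; exact ENNReal.ofReal_ne_top)

private lemma CCB_gauss (b v : ℝ) (hb : 0 < b) :
    Integrable (fun w : ℝ => Real.exp (-b * (v - w) ^ 2)) ∧
      ∫ w : ℝ, Real.exp (-b * (v - w) ^ 2) = √(Real.pi / b) := by
  constructor
  · exact (integrable_exp_neg_mul_sq hb).comp_sub_left v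
  · rw [integral_sub_left_eq_self (fun x : ℝ => Real.exp (-b * x ^ 2)) volume v, integral_gaussian]

private lemma CCB_ph_eq (δ u : ℝ) (hδ : 0 < δ) :
    ph δ u = Real.exp (-(1 / (2 * δ ^ 2)) * u ^ 2) * (1 / (δ * √(2 * Real.pi))) := by
  unfold ph
  rw [div_eq_mul_one_div]
  congr 2
  field_simp

private lemma CCB_ph_nonneg (δ u : ℝ) (hδ : 0 < δ) : 0 ≤ ph δ u := by
  unfold ph
  positivity

private lemma CCB_ph_int (δ v : ℝ) (hδ : 0 < δ) :
    Integrable (fun w : ℝ => ph δ (v - w)) ∧ ∫ w : ℝ, ph δ (v - w) = 1 := by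
  have hb : 0 < 1 / (2 * δ ^ 2) := by positivity
  obtain ⟨h1, h2⟩ := CCB_gauss (1 / (2 * δ ^ 2)) v hb
  have e : (fun w : ℝ => ph δ (v - w)) = fun w : ℝ =>
      Real.exp (-(1 / (2 * δ ^ 2)) * (v - w) ^ 2) * (1 / (δ * √(2 * Real.pi))) := by
    funext w
    exact CCB_ph_eq δ (v - w) hδ
  rw [e]
  refine ⟨h1.mul_const _, ?_⟩
  rw [integral_mul_const, h2]
  have h3 : √(Real.pi / (1 / (2 * δ ^ 2))) = δ * √(2 * Real.pi) := by
    rw [show Real.pi / (1 / (2 * δ ^ 2)) = δ ^ 2 * (2 * Real.pi) by field_simp,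
      Real.sqrt_mul (by positivity), Real.sqrt_sq hδ.le]
  rw [h3]
  have : δ * √(2 * Real.pi) ≠ 0 := by positivity
  field_simp

theorem CCB : CCB_stmt := by
  refine ⟨CCB_one, fun N c hc => ⟨CCB_abs N c hc, CCB_supp N c, CCB_int N c⟩, ?_, ?_, ?_, ?_⟩
  · intro N c δ v hδ hc
    unfold Ph
    obtain ⟨h1, h2⟩ := CCB_ph_int δ v hδ
    rw [← Real.norm_eq_abs, ← h2]
    refine norm_integral_le_of_norm_le h1 (Filter.Eventually.of_forall fun w => ?_)
    rw [norm_mul, Real.norm_eq_abs, Real.norm_eq_abs, abs_of_nonneg (CCB_ph_nonneg δ _ hδ)]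
    exact mul_le_of_le_one_left (CCB_ph_nonneg δ _ hδ) (CCB_abs N c hc w)
  · intro N c δ v hN hδ hc hv
    unfold Ph
    have hb : 0 < 1 / (4 * δ ^ 2) := by positivity
    obtain ⟨h1, h2⟩ := CCB_gauss (1 / (4 * δ ^ 2)) v hb
    have hs : 0 < √(2 * Real.pi) := by positivity
    set κ : ℝ := Real.exp (-(1 / (9 * δ ^ 2))) * (1 / (δ * √(2 * Real.pi))) with hκ
    have hκ0 : 0 ≤ κ := by positivity
    have hbd : ∀ w : ℝ, ‖CC N c w * ph δ (v - w)‖ ≤
        Real.exp (-(1 / (4 * δ ^ 2)) * (v - w) ^ 2) * κ := by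
      intro w
      by_cases hw : CC N c w = 0
      · rw [hw, zero_mul, norm_zero]
        positivity
      · obtain ⟨hw1, hw2⟩ := CCB_supp N c w hw
        have hl2 := Real.log_two_gt_d9
        have hsq : 4 / 9 ≤ (v - w) ^ 2 := by
          rcases hv with h | h
          · nlinarith
          · nlinarith
        rw [norm_mul, Real.norm_eq_abs, Real.norm_eq_abs, abs_of_nonneg (CCB_ph_nonneg δ _ hδ)]
        refine (mul_le_of_le_one_left (CCB_ph_nonneg δ _ hδ) (CCB_abs N c hc w)).trans ?_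
        rw [CCB_ph_eq δ _ hδ, hκ, ← mul_assoc, ← Real.exp_add]
        apply mul_le_mul_of_nonneg_right _ (by positivity)
        apply Real.exp_le_exp.2
        have e1 : -(1 / (2 * δ ^ 2)) * (v - w) ^ 2 =
            -(1 / (4 * δ ^ 2)) * (v - w) ^ 2 - (v - w) ^ 2 * (1 / (4 * δ ^ 2)) := by
          field_simp
          ring
        have e2 : 1 / (9 * δ ^ 2) ≤ (v - w) ^ 2 * (1 / (4 * δ ^ 2)) := by
          have e3 : 1 / (9 * δ ^ 2) = 4 / 9 * (1 / (4 * δ ^ 2)) := by
            field_simp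
          rw [e3]
          exact mul_le_mul_of_nonneg_right hsq hb.le
        rw [e1]
        linarith
    rw [← Real.norm_eq_abs]
    refine (norm_integral_le_of_norm_le (h1.mul_const κ) (Filter.Eventually.of_forall hbd)).trans ?_
    rw [integral_mul_const, h2]
    have h3 : √(Real.pi / (1 / (4 * δ ^ 2))) = √2 * (δ * √(2 * Real.pi)) := by
      rw [show Real.pi / (1 / (4 * δ ^ 2)) = 2 * (δ ^ 2 * (2 * Real.pi)) by field_simp; ring,
        Real.sqrt_mul (by norm_num), Real.sqrt_mul (by positivity), Real.sqrt_sq hδ.le]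
    rw [h3, hκ]
    have h4 : √2 * (δ * √(2 * Real.pi)) * (Real.exp (-(1 / (9 * δ ^ 2))) * (1 / (δ * √(2 * Real.pi)))) =
        √2 * Real.exp (-(1 / (9 * δ ^ 2))) := by
      have : δ * √(2 * Real.pi) ≠ 0 := by positivity
      field_simp
    rw [h4]
    apply mul_le_mul_of_nonneg_right _ (Real.exp_pos _).le
    rw [Real.sqrt_le_left (by norm_num)]
    norm_num
  · intro N c j hc
    rcases Nat.eq_zero_or_pos j with h | h
    · subst h
      have : cc N c 0 = 0 := by
        unfold cc Win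
        apply Finset.sum_eq_zero
        intro n _
        rw [if_neg]
        rw [mem_Ioc]
        omega
      rw [this]
      simp
    · rw [CCB_one N c j h]
      exact CCB_abs N c hc _
  · intro N c δ v hδ hc0 hc
    unfold Ph
    apply integral_nonneg
    intro w
    apply mul_nonneg _ (CCB_ph_nonneg δ _ hδ)
    rcases CCB_val N c w with h | ⟨n, _, _, h⟩
    · rw [h]
    · rw [h]; exact hc0 n

end Pool.Agent.CH
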