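import Pool.Agent.helper17.CH.SpecQ

/-!
# Project CH (MP_5628fe_nt), row DYL
-/

set_option autoImplicit false

namespace Pool.Agent.CH

open Finset

private lemma DYL_log (A : ℕ) (N : ℝ) (hN : Real.exp (6 * ((A : ℝ) + 1)) ≤ N) :
    Real.log N ^ A ≤ 3 / 2 * Real.log (N / 3) ^ A ∧ 0 < Real.log (N / 3) := by
  have hN0 : 0 < N := (Real.exp_pos _).trans_le hN
  set L := Real.log N with hL
  have hL6 : 6 * ((A : ℝ) + 1) ≤ L := by rw [hL, Real.le_log_iff_exp_le hN0]; exact hN
  have hA : (0 : ℝ) ≤ A := Nat.cast_nonneg A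
  have hL0 : 0 < L := by linarith
  have h3 : Real.log 3 ≤ 2 := by
    have := Real.log_le_sub_one_of_pos (show (0 : ℝ) < 3 by norm_num)
    linarith
  have e : Real.log (N / 3) = L - Real.log 3 := Real.log_div hN0.ne' (by norm_num)
  have e2 : L - Real.log 3 = L * (1 + -(Real.log 3 / L)) := by
    field_simp
    ring
  have ht : Real.log 3 / L ≤ 1 / (3 * ((A : ℝ) + 1)) := by
    rw [div_le_div_iff₀ hL0 (by positivity)]
    nlinarith
  have ht2 : (1 : ℝ) / (3 * ((A : ℝ) + 1)) ≤ 1 / 3 := by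
    apply one_div_le_one_div_of_le (by norm_num)
    linarith
  have hb := one_add_mul_le_pow (show (-2 : ℝ) ≤ -(Real.log 3 / L) by linarith) A
  have hb2 : 2 / 3 ≤ 1 + (A : ℝ) * -(Real.log 3 / L) := by
    have h4 : (A : ℝ) * (Real.log 3 / L) ≤ A * (1 / (3 * ((A : ℝ) + 1))) :=
      mul_le_mul_of_nonneg_left ht hA
    have h5 : (A : ℝ) * (1 / (3 * ((A : ℝ) + 1))) ≤ 1 / 3 := by
      rw [mul_one_div, div_le_div_iff₀ (by positivity) (by norm_num)]
      linarith
    linarith
  rw [e, e2, mul_pow]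
  constructor
  · have h6 : 2 / 3 ≤ (1 + -(Real.log 3 / L)) ^ A := hb2.trans hb
    have h7 : 0 ≤ L ^ A := by positivity
    nlinarith
  · apply mul_pos hL0
    linarith

theorem DYL : DYL_stmt := by
  classical
  intro S A N₀ h
  obtain ⟨N₁, hN₁⟩ : ∃ N₁ : ℕ, N₁ = max (2 * N₀) (⌈Real.exp (6 * ((A : ℝ) + 1))⌉₊ + 4) := ⟨_, rfl⟩
  obtain ⟨C, hC⟩ : ∃ C : ℝ, C = max 6 (Real.log N₁ ^ A) := ⟨_, rfl⟩
  refine ⟨C, ?_⟩
  intro N
  induction N using Nat.strong_induction_on with
  | _ N ih =>
    intro hN2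
    have hNR : (2 : ℝ) ≤ N := by exact_mod_cast hN2
    have hN0 : (0 : ℝ) < N := by linarith
    have hL0 : 0 < Real.log N := Real.log_pos (by linarith)
    have hLA : 0 < Real.log N ^ A := by positivity
    have hC6 : 6 ≤ C := by rw [hC]; exact le_max_left _ _
    by_cases hlt : N < N₁
    · have h1 : (#((Icc 1 N).filter S) : ℝ) ≤ N := by
        have : #((Icc 1 N).filter S) ≤ N := by
          calc #((Icc 1 N).filter S) ≤ #(Icc 1 N) := card_filter_le _ _
            _ = N := by simp
        exact_mod_cast this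
      refine h1.trans ?_
      rw [le_div_iff₀ hLA, mul_comm]
      apply mul_le_mul_of_nonneg_right _ hN0.le
      calc Real.log N ^ A ≤ Real.log N₁ ^ A := by
            apply pow_le_pow_left₀ hL0.le
            apply Real.log_le_log hN0
            exact_mod_cast hlt.le
        _ ≤ C := by rw [hC]; exact le_max_right _ _
    · push Not at hlt
      rw [hN₁] at hlt
      have hA1 : 2 * N₀ ≤ N := (le_max_left _ _).trans hlt
      have hA2 : ⌈Real.exp (6 * ((A : ℝ) + 1))⌉₊ + 4 ≤ N := (le_max_right _ _).trans hlt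
      have hA3 : Real.exp (6 * ((A : ℝ) + 1)) ≤ N := by
        refine (Nat.le_ceil _).trans ?_
        exact_mod_cast (by omega : ⌈Real.exp (6 * ((A : ℝ) + 1))⌉₊ ≤ N)
      obtain ⟨hl1, hl2⟩ := DYL_log A N hA3
      have hN4 : 4 ≤ N := by omega
      obtain ⟨m, hm⟩ : ∃ m : ℕ, m = N / 2 := ⟨_, rfl⟩
      have hm2 : 2 ≤ m := by omega
      have hmN : m < N := by omega
      have hm3 : N ≤ 3 * m := by omega
      have hmR : (N : ℝ) / 3 ≤ m := by
        rw [div_le_iff₀ (by norm_num)]
        have : (N : ℝ) ≤ 3 * m := by exact_mod_cast hm3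
        linarith
      have hm2R : (m : ℝ) ≤ N / 2 := by
        rw [le_div_iff₀ (by norm_num)]
        have : m * 2 ≤ N := by omega
        exact_mod_cast this
      have hlogm : Real.log (N / 3) ≤ Real.log m := Real.log_le_log (by positivity) hmR
      have hlogm1 : Real.log (N / 3) ≤ Real.log ((m + 1 : ℕ) : ℝ) := by
        apply Real.log_le_log (by positivity)
        push_cast
        linarith
      have hpA : 0 < Real.log (N / 3 : ℝ) ^ A := by positivity
      have key : ∀ (x l : ℝ), 0 ≤ x → Real.log (N / 3) ≤ l → x / l ^ A ≤ 3 / 2 * x / Real.log N ^ A := by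
        intro x l hx hl
        have hlA : Real.log (N / 3) ^ A ≤ l ^ A := pow_le_pow_left₀ hl2.le hl A
        calc x / l ^ A ≤ x / Real.log (N / 3) ^ A := by gcongr
          _ ≤ 3 / 2 * x / Real.log N ^ A := by
            rw [div_le_div_iff₀ hpA hLA]
            nlinarith
      have ih1 := ih m hmN hm2
      have hb := h (m + 1) (by omega)
      have hsub : (Icc 1 N).filter S ⊆ (Icc 1 m).filter S ∪ (Ico (m + 1) (2 * (m + 1))).filter S := by
        intro n hn
        rw [mem_filter, mem_Icc] at hn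
        rw [mem_union, mem_filter, mem_filter, mem_Icc, mem_Ico]
        by_cases hnm : n ≤ m
        · exact Or.inl ⟨⟨hn.1.1, hnm⟩, hn.2⟩
        · exact Or.inr ⟨⟨by omega, by omega⟩, hn.2⟩
      have hcard : (#((Icc 1 N).filter S) : ℝ) ≤ #((Icc 1 m).filter S) +
          #((Ico (m + 1) (2 * (m + 1))).filter S) := by
        exact_mod_cast (card_le_card hsub).trans (card_union_le _ _)
      have hC0 : 0 ≤ C := by linarith
      have k1 := key (C * m) (Real.log m) (by positivity) hlogm
      have k2 := key ((m + 1 : ℕ) : ℝ) (Real.log ((m + 1 : ℕ) : ℝ)) (by positivity) hlogm1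
      have hm1N : (((m + 1 : ℕ) : ℕ) : ℝ) ≤ N := by
        exact_mod_cast (by omega : m + 1 ≤ N)
      calc (#((Icc 1 N).filter S) : ℝ) ≤ #((Icc 1 m).filter S) +
          #((Ico (m + 1) (2 * (m + 1))).filter S) := hcard
        _ ≤ 3 / 2 * (C * m) / Real.log N ^ A + 3 / 2 * ((m + 1 : ℕ) : ℝ) / Real.log N ^ A :=
          add_le_add (ih1.trans k1) (hb.trans k2)
        _ ≤ C * N / Real.log N ^ A := by
          rw [← add_div]
          apply div_le_div_of_nonneg_right _ hLA.le
          nlinarith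

end Pool.Agent.CH
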