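import Pool.Agent.helper17.CH.SpecV

/-!
# Project CH (MP_5628fe_nt), row HOL
-/

set_option autoImplicit false

namespace Pool.Agent.CH

open Finset

section HOLsec

variable (k R : ℕ)

/-- the finite group of the residues of the power sums -/
abbrev HOL_G : Type := {j // j ∈ Icc 1 k} → ZMod R

/-- the power sums of a tuple -/
def HOL_v {n : ℕ} (m : Fin n → ℤ) : HOL_G k R := fun j => ((∑ i, m i ^ (j : ℕ) : ℤ) : ZMod R)

/-- the powers of an integer -/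
def HOL_p (x : ℤ) : HOL_G k R := fun j => ((x ^ (j : ℕ) : ℤ) : ZMod R)

theorem HOL_v_eq {n : ℕ} (m : Fin n → ℤ) : HOL_v k R m = ∑ i, HOL_p k R (m i) := by
  funext j
  unfold HOL_v HOL_p
  rw [Finset.sum_apply]
  push_cast
  rfl

theorem HOL_map_sum {ι G : Type*} [AddCommMonoid G] (ψ : AddChar G ℂ) (S : Finset ι) (g : ι → G) :
    ψ (∑ i ∈ S, g i) = ∏ i ∈ S, ψ (g i) := by
  classical
  induction S using Finset.induction_on with
  | empty => simp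
  | insert a S ha ih => rw [Finset.sum_insert ha, Finset.prod_insert ha, AddChar.map_add_eq_mul, ih]

theorem HOL_pow {s : ℕ} (A : Finset ℤ) (ψ : AddChar (HOL_G k R) ℂ) :
    (∑ x ∈ A, ψ (HOL_p k R x)) ^ s =
      ∑ x ∈ Fintype.piFinset (fun _ : Fin s => A), ψ (HOL_v k R x) := by
  have h := Finset.prod_univ_sum (fun _ : Fin s => A) (fun _ x => ψ (HOL_p k R x))
  rw [Finset.prod_const, Finset.card_univ, Fintype.card_fin] at h
  rw [h]
  refine Finset.sum_congr rfl fun x _ => ?_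
  rw [HOL_v_eq, HOL_map_sum]

theorem HOL_conj [NeZero R] {α : Type*} (S : Finset α) (g : α → HOL_G k R) (ψ : AddChar (HOL_G k R) ℂ) :
    (∑ a ∈ S, ψ (g a)) * (starRingEnd ℂ) (∑ a ∈ S, ψ (g a)) =
      ∑ w ∈ S ×ˢ S, ψ (g w.1 - g w.2) := by
  rw [map_sum, Finset.sum_mul_sum, Finset.sum_product]
  refine Finset.sum_congr rfl fun a _ => Finset.sum_congr rfl fun b _ => ?_
  rw [← AddChar.map_neg_eq_conj, ← AddChar.map_add_eq_mul, sub_eq_add_neg]

/-- the difference of both sides of the system -/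
def HOL_T {s : ℕ} (w : ((Fin k → ℤ) × (Fin k → ℤ)) × ((Fin s → ℤ) × (Fin s → ℤ))) : HOL_G k R :=
  (HOL_v k R w.1.1 - HOL_v k R w.1.2) + (HOL_v k R w.2.1 - HOL_v k R w.2.2)

theorem HOL_expand [NeZero R] (s : ℕ) (M : Finset (Fin k → ℤ)) (A : Finset ℤ)
    (ψ : AddChar (HOL_G k R) ℂ) :
    ((‖∑ m ∈ M, ψ (HOL_v k R m)‖ ^ 2 * ‖∑ x ∈ A, ψ (HOL_p k R x)‖ ^ (2 * s) : ℝ) : ℂ) =
      ∑ w ∈ (M ×ˢ M) ×ˢ ((Fintype.piFinset fun _ : Fin s => A) ×ˢ
        (Fintype.piFinset fun _ : Fin s => A)), ψ (HOL_T k R w) := by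
  have h1 : ((‖∑ x ∈ A, ψ (HOL_p k R x)‖ ^ (2 * s) : ℝ) : ℂ) =
      (∑ x ∈ Fintype.piFinset (fun _ : Fin s => A), ψ (HOL_v k R x)) *
        (starRingEnd ℂ) (∑ x ∈ Fintype.piFinset (fun _ : Fin s => A), ψ (HOL_v k R x)) := by
    rw [← HOL_pow, map_pow, ← mul_pow, Complex.mul_conj']
    push_cast
    rw [pow_mul]
  rw [Complex.ofReal_mul, h1, HOL_conj]
  push_cast
  rw [← Complex.mul_conj', HOL_conj, Finset.sum_mul_sum]
  symm
  rw [Finset.sum_product]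
  refine Finset.sum_congr rfl fun a _ => Finset.sum_congr rfl fun b _ => ?_
  unfold HOL_T
  rw [AddChar.map_add_eq_mul]

theorem HOL_count [NeZero R] (s : ℕ) (M : Finset (Fin k → ℤ)) (A : Finset ℤ)
    (hR : ∀ w ∈ (M ×ˢ M) ×ˢ ((Fintype.piFinset fun _ : Fin s => A) ×ˢ
        (Fintype.piFinset fun _ : Fin s => A)), ∀ j ∈ Icc 1 k,
        ((∑ i, w.1.1 i ^ j - ∑ i, w.1.2 i ^ j) + (∑ i, w.2.1 i ^ j - ∑ i, w.2.2 i ^ j)).natAbs < R) :
    ∑ ψ : AddChar (HOL_G k R) ℂ,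
      ‖∑ m ∈ M, ψ (HOL_v k R m)‖ ^ 2 * ‖∑ x ∈ A, ψ (HOL_p k R x)‖ ^ (2 * s) =
      (Fintype.card (HOL_G k R) : ℝ) * (Q4 s k M A : ℝ) := by
  classical
  have h : ((∑ ψ : AddChar (HOL_G k R) ℂ,
      ‖∑ m ∈ M, ψ (HOL_v k R m)‖ ^ 2 * ‖∑ x ∈ A, ψ (HOL_p k R x)‖ ^ (2 * s) : ℝ) : ℂ) =
      (((Fintype.card (HOL_G k R) : ℝ) * (Q4 s k M A : ℝ) : ℝ) : ℂ) := by
    rw [Complex.ofReal_sum]
    simp_rw [HOL_expand]
    rw [Finset.sum_comm]
    simp_rw [AddChar.sum_apply_eq_ite]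
    rw [← Finset.sum_filter, Finset.sum_const, nsmul_eq_mul, mul_comm]
    push_cast
    unfold Q4
    congr 3
    ext w
    rw [mem_filter, mem_filter]
    refine and_congr_right fun hw => ?_
    have e : ∀ j : {j // j ∈ Icc 1 k}, HOL_T k R w j =
        ((((∑ i, w.1.1 i ^ (j : ℕ) - ∑ i, w.1.2 i ^ (j : ℕ)) +
          (∑ i, w.2.1 i ^ (j : ℕ) - ∑ i, w.2.2 i ^ (j : ℕ)) : ℤ)) : ZMod R) := by
      intro j
      unfold HOL_T HOL_v
      simp only [Pi.add_apply, Pi.sub_apply]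
      push_cast
      ring
    constructor
    · intro hT j hj
      have h1 := congrFun hT ⟨j, hj⟩
      rw [e ⟨j, hj⟩] at h1
      have h2 := (ZMod.intCast_zmod_eq_zero_iff_dvd _ _).mp h1
      have h3 := Int.eq_zero_of_dvd_of_natAbs_lt_natAbs h2 (by
        rw [Int.natAbs_natCast]; exact hR w hw j hj)
      simp only at h3
      linarith
    · intro hj
      funext j
      rw [e j]
      have h1 := hj j.1 j.2
      have h2 : ((∑ i, w.1.1 i ^ (j : ℕ) - ∑ i, w.1.2 i ^ (j : ℕ)) +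
          (∑ i, w.2.1 i ^ (j : ℕ) - ∑ i, w.2.2 i ^ (j : ℕ)) : ℤ) = 0 := by linarith
      rw [h2]
      simp
  exact_mod_cast h

end HOLsec

theorem HOL : HOL_stmt := by
  intro s k p M A hs hp
  classical
  set D : ((Fin k → ℤ) × (Fin k → ℤ)) × ((Fin s → ℤ) × (Fin s → ℤ)) → ℕ → ℕ := fun w j =>
    ((∑ i, w.1.1 i ^ j - ∑ i, w.1.2 i ^ j) + (∑ i, w.2.1 i ^ j - ∑ i, w.2.2 i ^ j)).natAbs with hD
  set W := (M ×ˢ M) ×ˢ ((Fintype.piFinset fun _ : Fin s => A) ×ˢ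
        (Fintype.piFinset fun _ : Fin s => A)) with hW
  set R : ℕ := 1 + ∑ w ∈ W, ∑ j ∈ Icc 1 k, D w j with hRdef
  have : NeZero R := ⟨by omega⟩
  have hR : ∀ A' ⊆ A, ∀ w ∈ (M ×ˢ M) ×ˢ ((Fintype.piFinset fun _ : Fin s => A') ×ˢ
        (Fintype.piFinset fun _ : Fin s => A')), ∀ j ∈ Icc 1 k,
        ((∑ i, w.1.1 i ^ j - ∑ i, w.1.2 i ^ j) + (∑ i, w.2.1 i ^ j - ∑ i, w.2.2 i ^ j)).natAbs < R := by
    intro A' hA' w hw j hj
    have hw' : w ∈ W := by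
      rw [hW]
      refine Finset.product_subset_product_right (Finset.product_subset_product ?_ ?_) hw
      · exact Fintype.piFinset_subset _ _ fun _ => hA'
      · exact Fintype.piFinset_subset _ _ fun _ => hA'
    have h1 : D w j ≤ ∑ j ∈ Icc 1 k, D w j := Finset.single_le_sum (fun _ _ => Nat.zero_le _) hj
    have h2 : ∑ j ∈ Icc 1 k, D w j ≤ ∑ w ∈ W, ∑ j ∈ Icc 1 k, D w j :=
      Finset.single_le_sum (f := fun w => ∑ j ∈ Icc 1 k, D w j) (fun _ _ => Nat.zero_le _) hw'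
    change D w j < R
    omega
  have hcard : (0 : ℝ) < (Fintype.card (HOL_G k R) : ℝ) := by
    exact_mod_cast Fintype.card_pos
  have h0 := HOL_count k R s M A (hR A (Subset.refl _))
  have hcls : ∀ a : ℕ, _ := fun a => HOL_count k R s M (A.filter fun x => x % (p : ℤ) = (a : ℤ))
    (hR _ (Finset.filter_subset _ _))
  have hsplit : ∀ ψ : AddChar (HOL_G k R) ℂ, ∑ x ∈ A, ψ (HOL_p k R x) =
      ∑ a ∈ range p, ∑ x ∈ A.filter (fun x => x % (p : ℤ) = (a : ℤ)), ψ (HOL_p k R x) := by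
    intro ψ
    have hpz : (0 : ℤ) < p := by exact_mod_cast hp
    rw [← Finset.sum_fiberwise_of_maps_to (t := range p) (g := fun x : ℤ => (x % (p : ℤ)).toNat)]
    · refine Finset.sum_congr rfl fun a _ => ?_
      refine Finset.sum_congr ?_ fun _ _ => rfl
      ext x
      rw [mem_filter, mem_filter]
      refine and_congr_right fun _ => ?_
      have h1 := Int.emod_nonneg x hpz.ne'
      constructor
      · intro h; omega
      · intro h; rw [h]; simp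
    · intro x _
      rw [mem_range]
      have h1 := Int.emod_nonneg x hpz.ne'
      have h2 := Int.emod_lt_of_pos x hpz
      omega
  have hpt : ∀ ψ : AddChar (HOL_G k R) ℂ, ‖∑ x ∈ A, ψ (HOL_p k R x)‖ ^ (2 * s) ≤
      (p : ℝ) ^ (2 * s - 1) * ∑ a ∈ range p,
        ‖∑ x ∈ A.filter (fun x => x % (p : ℤ) = (a : ℤ)), ψ (HOL_p k R x)‖ ^ (2 * s) := by
    intro ψ
    obtain ⟨n, hn⟩ : ∃ n, 2 * s = n + 1 := ⟨2 * s - 1, by omega⟩
    have hn' : 2 * s - 1 = n := by omega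
    rw [hn', hn, hsplit ψ]
    refine (pow_le_pow_left₀ (norm_nonneg _) (norm_sum_le _ _) _).trans ?_
    have h := pow_sum_le_card_mul_sum_pow (s := range p)
      (f := fun a => ‖∑ x ∈ A.filter (fun x => x % (p : ℤ) = (a : ℤ)), ψ (HOL_p k R x)‖)
      (fun _ _ => norm_nonneg _) n
    rw [card_range] at h
    exact h
  have hmain : (Fintype.card (HOL_G k R) : ℝ) * (Q4 s k M A : ℝ) ≤
      (Fintype.card (HOL_G k R) : ℝ) * ((p : ℝ) ^ (2 * s - 1) * ∑ a ∈ range p,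
        (Q4 s k M (A.filter fun x => x % (p : ℤ) = (a : ℤ)) : ℝ)) := by
    rw [← h0]
    calc ∑ ψ : AddChar (HOL_G k R) ℂ,
          ‖∑ m ∈ M, ψ (HOL_v k R m)‖ ^ 2 * ‖∑ x ∈ A, ψ (HOL_p k R x)‖ ^ (2 * s)
        ≤ ∑ ψ : AddChar (HOL_G k R) ℂ, ‖∑ m ∈ M, ψ (HOL_v k R m)‖ ^ 2 *
          ((p : ℝ) ^ (2 * s - 1) * ∑ a ∈ range p,
            ‖∑ x ∈ A.filter (fun x => x % (p : ℤ) = (a : ℤ)), ψ (HOL_p k R x)‖ ^ (2 * s)) :=
          Finset.sum_le_sum fun ψ _ => mul_le_mul_of_nonneg_left (hpt ψ) (by positivity)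
      _ = (p : ℝ) ^ (2 * s - 1) * ∑ a ∈ range p, ∑ ψ : AddChar (HOL_G k R) ℂ,
          ‖∑ m ∈ M, ψ (HOL_v k R m)‖ ^ 2 *
            ‖∑ x ∈ A.filter (fun x => x % (p : ℤ) = (a : ℤ)), ψ (HOL_p k R x)‖ ^ (2 * s) := by
          rw [Finset.sum_comm, Finset.mul_sum]
          refine Finset.sum_congr rfl fun ψ _ => ?_
          rw [← Finset.mul_sum]
          ring
      _ = (p : ℝ) ^ (2 * s - 1) * ∑ a ∈ range p, (Fintype.card (HOL_G k R) : ℝ) *
            (Q4 s k M (A.filter fun x => x % (p : ℤ) = (a : ℤ)) : ℝ) := by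
          refine congrArg _ (Finset.sum_congr rfl fun a _ => hcls a)
      _ = _ := by
          rw [← Finset.mul_sum]
          ring
  have hfin := le_of_mul_le_mul_left hmain hcard
  exact_mod_cast hfin

end Pool.Agent.CH
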