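import Pool.Agent.helper17.CH.SpecW
import Pool.Agent.helper74.TG.SW

/-!
# Project CH (MP_5628fe_nt), row PS
-/

set_option autoImplicit false

namespace Pool.Agent.CH

open Finset ArithmeticFunction

private lemma PS_logpow (A : ℕ) (c : ℝ) (hc : 0 < c) : ∃ N₀ : ℕ, ∀ N : ℕ, N₀ ≤ N →
    Real.log N ^ A ≤ c * N := by
  have h1 := (isLittleO_log_rpow_rpow_atTop (A : ℝ) (show (0 : ℝ) < 1 by norm_num)).bound hc
  obtain ⟨x₀, h⟩ := Filter.eventually_atTop.1 h1
  refine ⟨⌈max x₀ 1⌉₊, fun N hN => ?_⟩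
  have hN' : max x₀ 1 ≤ (N : ℝ) := (Nat.le_ceil _).trans (by exact_mod_cast hN)
  have hx1 : (1 : ℝ) ≤ N := (le_max_right _ _).trans hN'
  have := h N ((le_max_left _ _).trans hN')
  rw [Real.norm_of_nonneg (Real.rpow_nonneg (Real.log_nonneg hx1) _), Real.rpow_one,
    Real.norm_of_nonneg (by linarith), Real.rpow_natCast] at this
  exact this

private lemma PS_small (q : ℕ) (χ : DirichletCharacter ℂ q) (N u : ℕ) (hu : u < N) :
    ‖∑ j ∈ Ioc 0 u, (vonMangoldt j : ℂ) * χ j‖ ≤ N * Real.log N ∧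
    ‖∑ j ∈ Ioc 0 u, ((vonMangoldt j : ℂ) * χ j - 1)‖ ≤ N * (Real.log N + 1) := by
  have hL : 0 ≤ Real.log N := Real.log_natCast_nonneg N
  have h1 : ∀ j ∈ Ioc 0 u, ‖(vonMangoldt j : ℂ) * χ j‖ ≤ Real.log N := by
    intro j hj
    rw [mem_Ioc] at hj
    have h2 : 0 ≤ vonMangoldt j := vonMangoldt_nonneg
    have h3 : vonMangoldt j ≤ Real.log j := vonMangoldt_le_log
    have h4 : Real.log j ≤ Real.log N := by
      apply Real.log_le_log
      · exact_mod_cast hj.1
      · exact_mod_cast hj.2.trans hu.le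
    rw [norm_mul, Complex.norm_real, Real.norm_of_nonneg h2]
    have h5 : ‖χ j‖ ≤ 1 := DirichletCharacter.norm_le_one χ _
    calc vonMangoldt j * ‖χ j‖ ≤ vonMangoldt j * 1 := mul_le_mul_of_nonneg_left h5 h2
      _ ≤ Real.log N := by linarith
  have huN : (u : ℝ) ≤ N := by exact_mod_cast hu.le
  constructor
  · calc ‖∑ j ∈ Ioc 0 u, (vonMangoldt j : ℂ) * χ j‖ ≤ ∑ j ∈ Ioc 0 u, Real.log N :=
          (norm_sum_le _ _).trans (sum_le_sum h1)
      _ = u * Real.log N := by rw [sum_const, Nat.card_Ioc, nsmul_eq_mul]; simp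
      _ ≤ N * Real.log N := mul_le_mul_of_nonneg_right huN hL
  · calc ‖∑ j ∈ Ioc 0 u, ((vonMangoldt j : ℂ) * χ j - 1)‖ ≤ ∑ j ∈ Ioc 0 u, (Real.log N + 1) := by
          refine (norm_sum_le _ _).trans (sum_le_sum fun j hj => ?_)
          refine (norm_sub_le _ _).trans ?_
          rw [norm_one]
          linarith [h1 j hj]
      _ = u * (Real.log N + 1) := by rw [sum_const, Nat.card_Ioc, nsmul_eq_mul]; simp
      _ ≤ N * (Real.log N + 1) := mul_le_mul_of_nonneg_right huN (by linarith)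

theorem PS : PS_stmt := by
  classical
  intro A B
  obtain ⟨C₁, x₁, hC₁, h1⟩ := Pool.Agent.helper74.TG.psi_char (A + 1) B
  obtain ⟨C₂, x₂, hC₂, h2⟩ := Pool.Agent.helper74.TG.psi_pnt (A + 1)
  obtain ⟨N₁, hN₁⟩ := PS_logpow (A + B + 2) (1 / 110) (by norm_num)
  obtain ⟨N₂, hN₂⟩ := PS_logpow (A + 1) (1 / 2) (by norm_num)
  set E : ℝ := max (max x₁ x₂) (Real.exp (3 + 64 * C₁ + 128 * C₂)) with hE
  refine ⟨max (max N₁ N₂) (⌈E⌉₊ + 1), fun N hN q hq hqL χ u hu => ?_⟩
  have hNN1 : N₁ ≤ N := (le_max_left _ _).trans ((le_max_left _ _).trans hN)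
  have hNN2 : N₂ ≤ N := (le_max_right _ _).trans ((le_max_left _ _).trans hN)
  have hNE : E ≤ N := by
    have h3 : ⌈E⌉₊ ≤ N := by
      have := (le_max_right _ _).trans hN
      omega
    exact (Nat.le_ceil _).trans (by exact_mod_cast h3)
  have hx₁ : x₁ ≤ N := (le_max_left _ _).trans ((le_max_left _ _).trans hNE)
  have hx₂ : x₂ ≤ N := (le_max_right _ _).trans ((le_max_left _ _).trans hNE)
  have hexp : Real.exp (3 + 64 * C₁ + 128 * C₂) ≤ N := (le_max_right _ _).trans hNE
  have hN0 : (0 : ℝ) < N := (Real.exp_pos _).trans_le hexp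
  set L := Real.log N with hL
  have hL3 : 3 + 64 * C₁ + 128 * C₂ ≤ L := by rw [hL, Real.le_log_iff_exp_le hN0]; exact hexp
  have hL0 : 0 < L := by linarith
  have hL1 : 1 ≤ L := by linarith
  have hN1 : (1 : ℝ) ≤ N := by
    have : 0 < N := by exact_mod_cast hN0
    exact_mod_cast this
  have hNpow : (N : ℝ) ≤ N ^ 3 := by
    calc (N : ℝ) = N ^ 1 := (pow_one _).symm
      _ ≤ N ^ 3 := pow_le_pow_right₀ hN1 (by norm_num)
  have hNpow2 : (N : ℝ) ^ 2 ≤ N ^ 3 := pow_le_pow_right₀ hN1 (by norm_num)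
  have hLA : 0 < L ^ A := by positivity
  have e2 := hN₂ N hNN2
  rw [← hL] at e2
  have e1 := hN₁ N hNN1
  rw [← hL] at e1
  rcases lt_or_ge u N with hsm | hla
  · -- small `u`
    have hs := PS_small q χ N u hsm
    rw [← hL] at hs
    have hb : (N : ℝ) * (L + 1) ≤ (N : ℝ) ^ 3 / L ^ A := by
      rw [le_div_iff₀ hLA]
      have e3 : (L + 1) * L ^ A ≤ 2 * L ^ (A + 1) := by
        rw [pow_succ]
        nlinarith
      calc (N : ℝ) * (L + 1) * L ^ A = N * ((L + 1) * L ^ A) := by ring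
        _ ≤ N * (2 * (1 / 2 * N)) := by
            apply mul_le_mul_of_nonneg_left _ hN0.le
            linarith
        _ = (N : ℝ) ^ 2 := by ring
        _ ≤ N ^ 3 := hNpow2
    refine ⟨fun _ => hs.1.trans (le_trans ?_ hb), fun _ => hs.2.trans hb⟩
    apply mul_le_mul_of_nonneg_left _ hN0.le
    linarith
  · -- large `u`
    have huR : (N : ℝ) ≤ u := by exact_mod_cast hla
    have hu0 : (0 : ℝ) < u := hN0.trans_le huR
    have huU : (u : ℝ) ≤ 64 * N ^ 3 := by exact_mod_cast hu
    have hlogu : L ≤ Real.log u := Real.log_le_log hN0 huR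
    have hlogu5 : Real.log u ≤ 5 * L := by
      calc Real.log u ≤ Real.log (64 * N ^ 3) := Real.log_le_log hu0 huU
        _ = 6 * Real.log 2 + 3 * L := by
            rw [Real.log_mul (by norm_num) (by positivity), Real.log_pow, ← hL,
              show (64 : ℝ) = 2 ^ 6 by norm_num, Real.log_pow]
            push_cast
            ring
        _ ≤ 5 * L := by
            have := Real.log_two_lt_d9
            linarith
    have hqu : (q : ℝ) ≤ Real.log u ^ B := hqL.trans (pow_le_pow_left₀ hL0.le hlogu B)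
    have hconv : ∀ C : ℝ, 0 ≤ C → C * u / Real.log u ^ (A + 1) ≤ (64 * C / L) * (N ^ 3 / L ^ A) := by
      intro C hC
      calc C * u / Real.log u ^ (A + 1) ≤ C * (64 * N ^ 3) / L ^ (A + 1) := by gcongr
        _ = (64 * C / L) * (N ^ 3 / L ^ A) := by
            rw [pow_succ L A]
            field_simp
    have hX0 : 0 ≤ (N : ℝ) ^ 3 / L ^ A := by positivity
    constructor
    · intro hχ
      have hq2 : 2 ≤ q := by
        by_contra hlt
        have : q = 1 := by omega
        subst this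
        exact hχ (Subsingleton.elim _ _)
      have h3 := h1 u (hx₁.trans huR) q hq2 hqu χ hχ
      rw [Nat.floor_natCast] at h3
      refine (h3.trans (hconv C₁ hC₁.le)).trans ?_
      have h4 : 64 * C₁ / L ≤ 1 := by
        rw [div_le_one hL0]
        linarith
      calc (64 * C₁ / L) * ((N : ℝ) ^ 3 / L ^ A) ≤ 1 * ((N : ℝ) ^ 3 / L ^ A) :=
            mul_le_mul_of_nonneg_right h4 hX0
        _ = _ := one_mul _
    · intro hχ
      have h3 := h2 u (hx₂.trans huR)
      rw [Nat.floor_natCast] at h3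
      have hupos : 0 < u := by exact_mod_cast hu0
      have h4 := Pool.Agent.helper74.TG.noncoprime_sum q u hq hupos
      have e : ∑ j ∈ Ioc 0 u, ((vonMangoldt j : ℂ) * χ j - 1) =
          (((∑ n ∈ Ioc 0 u, vonMangoldt n - u) - ∑ n ∈ Ioc 0 u with ¬ Nat.Coprime n q,
            vonMangoldt n : ℝ) : ℂ) := by
        have e6 : ((∑ n ∈ Ioc 0 u with ¬ Nat.Coprime n q, vonMangoldt n : ℝ) : ℂ) =
            ∑ j ∈ Ioc 0 u, (if ¬ Nat.Coprime j q then (vonMangoldt j : ℂ) else 0) := by
          rw [sum_filter, Complex.ofReal_sum]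
          refine sum_congr rfl fun n _ => ?_
          split_ifs <;> simp
        rw [Complex.ofReal_sub, e6, hχ, sum_sub_distrib, sum_const, Nat.card_Ioc]
        push_cast
        have e5 : ∑ j ∈ Ioc 0 u, (vonMangoldt j : ℂ) * (1 : DirichletCharacter ℂ q) j =
            ∑ j ∈ Ioc 0 u, (vonMangoldt j : ℂ) -
              ∑ j ∈ Ioc 0 u, (if ¬ Nat.Coprime j q then (vonMangoldt j : ℂ) else 0) := by
          rw [← sum_sub_distrib]
          apply sum_congr rfl
          intro n _
          by_cases hc : Nat.Coprime n q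
          · have hun : IsUnit (n : ZMod q) := (ZMod.isUnit_iff_coprime n q).2 hc
            rw [MulChar.one_apply hun]
            simp [hc]
          · have hun : ¬ IsUnit (n : ZMod q) := fun h => hc ((ZMod.isUnit_iff_coprime n q).1 h)
            rw [MulChar.map_nonunit _ hun]
            simp [hc]
        rw [e5]
        simp
        ring
      rw [e, Complex.norm_real, Real.norm_eq_abs]
      have hnc0 : 0 ≤ ∑ n ∈ Ioc 0 u with ¬ Nat.Coprime n q, vonMangoldt n :=
        sum_nonneg fun n _ => vonMangoldt_nonneg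
      have h5 : |∑ n ∈ Ioc 0 u, vonMangoldt n - (u : ℝ)| ≤ 1 / 2 * ((N : ℝ) ^ 3 / L ^ A) := by
        refine (h3.trans (hconv C₂ hC₂.le)).trans ?_
        apply mul_le_mul_of_nonneg_right _ hX0
        rw [div_le_div_iff₀ hL0 (by norm_num)]
        linarith
      have h6 : ∑ n ∈ Ioc 0 u with ¬ Nat.Coprime n q, vonMangoldt n ≤
          1 / 2 * ((N : ℝ) ^ 3 / L ^ A) := by
        refine h4.trans ?_
        have hlu0 : 0 ≤ Real.log u := hL0.le.trans hlogu
        calc (q : ℝ) * (2 * Real.log u + 1) * Real.log u ≤ L ^ B * (11 * L) * (5 * L) := by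
              apply mul_le_mul _ hlogu5 hlu0 (by positivity)
              apply mul_le_mul hqL _ (by linarith) (by positivity)
              linarith
          _ = 55 * L ^ (B + 2) := by ring
          _ ≤ 1 / 2 * ((N : ℝ) ^ 3 / L ^ A) := by
              rw [← mul_div_assoc, le_div_iff₀ hLA]
              calc 55 * L ^ (B + 2) * L ^ A = 55 * L ^ (A + B + 2) := by ring
                _ ≤ 55 * (1 / 110 * N) := by linarith
                _ = 1 / 2 * N := by ring
                _ ≤ 1 / 2 * (N : ℝ) ^ 3 := by linarith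
      rw [abs_le] at h5 ⊢
      constructor <;> linarith [h5.1, h5.2]

end Pool.Agent.CH
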