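import Pool.Agent.helper17.CH.SpecQ

/-!
# Project CH (MP_5628fe_nt), row SQB
-/

set_option autoImplicit false

namespace Pool.Agent.CH

open Finset ArithmeticFunction

private lemma SQB_dvd (a b d : ℕ) (hd : 0 < d) (hab : a ≤ b) :
    (#((Ioc a b).filter fun j => d ∣ j + 6) : ℝ) ≤ ((b : ℝ) - a) / d + 1 := by
  have h1 : #((Ioc a b).filter fun j => d ∣ j + 6) ≤ #(Ioc ((a + 6) / d) ((b + 6) / d)) := by
    refine card_le_card_of_injOn (fun j => (j + 6) / d) ?_ ?_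
    · intro j hj
      rw [mem_coe, mem_filter, mem_Ioc] at hj
      rw [mem_coe, mem_Ioc]
      obtain ⟨⟨h1, h2⟩, t, ht⟩ := hj
      refine ⟨?_, Nat.div_le_div_right (by omega)⟩
      rw [Nat.div_lt_iff_lt_mul hd]
      change a + 6 < (j + 6) / d * d
      rw [ht, Nat.mul_div_cancel_left _ hd, mul_comm, ← ht]
      omega
    · intro j hj j' hj' h
      rw [mem_coe, mem_filter] at hj hj'
      obtain ⟨-, t, ht⟩ := hj
      obtain ⟨-, t', ht'⟩ := hj'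
      simp only [ht, ht', Nat.mul_div_cancel_left _ hd] at h
      rw [h] at ht
      omega
  rw [Nat.card_Ioc] at h1
  have h2 : (((b + 6) / d - (a + 6) / d : ℕ) : ℝ) = (((b + 6) / d : ℕ) : ℝ) - (((a + 6) / d : ℕ) : ℝ) :=
    Nat.cast_sub (Nat.div_le_div_right (by omega))
  have h3 : (((b + 6) / d : ℕ) : ℝ) ≤ ((b : ℝ) + 6) / d := by
    have := @Nat.cast_div_le ℝ _ _ _ (b + 6) d
    push_cast at this
    exact this
  have hd0 : (0 : ℝ) < d := by exact_mod_cast hd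
  have h4 : ((a : ℝ) + 6) / d - 1 ≤ (((a + 6) / d : ℕ) : ℝ) := by
    have h5 : a + 6 < d * ((a + 6) / d + 1) := Nat.lt_mul_div_succ _ hd
    have h6 : (a : ℝ) + 6 < d * ((((a + 6) / d : ℕ) : ℝ) + 1) := by exact_mod_cast h5
    rw [sub_le_iff_le_add, div_le_iff₀ hd0]
    linarith
  have h7 : (#((Ioc a b).filter fun j => d ∣ j + 6) : ℝ) ≤ (((b + 6) / d - (a + 6) / d : ℕ) : ℝ) := by
    exact_mod_cast h1
  have h8 : ((b : ℝ) + 6) / d - ((a : ℝ) + 6) / d = ((b : ℝ) - a) / d := by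
    rw [← sub_div]
    congr 1
    ring
  linarith

private lemma SQB_sum (m Y : ℕ) (hm : 2 ≤ m) :
    ∑ q ∈ Icc m Y, 1 / ((q : ℝ) ^ 2) ≤ 1 / ((m : ℝ) - 1) := by
  have hm' : (2 : ℝ) ≤ m := by exact_mod_cast hm
  rcases Nat.lt_or_ge Y m with h | h
  · rw [Icc_eq_empty (by omega), sum_empty]
    apply one_div_nonneg.2
    linarith
  · have key : ∀ Y : ℕ, m ≤ Y → ∑ q ∈ Icc m Y, 1 / ((q : ℝ) ^ 2) ≤ 1 / ((m : ℝ) - 1) - 1 / (Y : ℝ) := by
      intro Y hY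
      induction Y, hY using Nat.le_induction with
      | base =>
        rw [Icc_self, sum_singleton, ← sub_nonneg]
        have e : 1 / ((m : ℝ) - 1) - 1 / (m : ℝ) - 1 / ((m : ℝ) ^ 2) =
            1 / ((m : ℝ) ^ 2 * ((m : ℝ) - 1)) := by
          have h1 : (m : ℝ) - 1 ≠ 0 := by linarith
          have h2 : (m : ℝ) ≠ 0 := by linarith
          field_simp
          ring
        rw [e]
        apply one_div_nonneg.2
        apply mul_nonneg (by positivity)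
        linarith
      | succ Y hY ih =>
        rw [Finset.sum_Icc_succ_top (by omega)]
        have hY0 : (0 : ℝ) < Y := by
          have : 0 < Y := by omega
          exact_mod_cast this
        have e : 1 / (((Y + 1 : ℕ) : ℝ) ^ 2) ≤ 1 / (Y : ℝ) - 1 / ((Y + 1 : ℕ) : ℝ) := by
          push_cast
          rw [div_sub_div _ _ hY0.ne' (by positivity), div_le_div_iff₀ (by positivity) (by positivity)]
          nlinarith
        linarith
    refine (key Y h).trans ?_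
    have : (0 : ℝ) ≤ 1 / (Y : ℝ) := by positivity
    linarith

private lemma SQB_ev : ∃ x₀ : ℝ, ∀ x : ℝ, x₀ ≤ x → 64 ≤ x ∧
    24 * x ^ (11 / 6 : ℝ) + 3 * x ^ (3 / 2 : ℝ) ≤ x ^ (15 / 8 : ℝ) ∧
    4 * x ^ (3 / 2 : ℝ) * (6 * Real.log x + 7) ≤ x ^ (15 / 8 : ℝ) := by
  have h1 := (tendsto_rpow_atTop (show (0 : ℝ) < 1 / 24 by norm_num)).eventually_ge_atTop 48
  have h2 := (tendsto_rpow_atTop (show (0 : ℝ) < 3 / 8 by norm_num)).eventually_ge_atTop 6
  have h3 := (isLittleO_log_rpow_atTop (show (0 : ℝ) < 3 / 8 by norm_num)).bound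
    (show (0 : ℝ) < 1 / 60 by norm_num)
  have h4 := (Filter.eventually_ge_atTop (Real.exp 7))
  obtain ⟨x₀, hx₀⟩ := Filter.eventually_atTop.1 (h1.and (h2.and (h3.and h4)))
  refine ⟨max x₀ 64, fun x hx => ?_⟩
  obtain ⟨a1, a2, a3, a4⟩ := hx₀ x ((le_max_left _ _).trans hx)
  have hx64 : 64 ≤ x := (le_max_right _ _).trans hx
  have hx0 : 0 < x := by linarith
  have hL7 : 7 ≤ Real.log x := by rw [Real.le_log_iff_exp_le hx0]; exact a4
  rw [Real.norm_of_nonneg (by linarith), Real.norm_of_nonneg (by positivity)] at a3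
  have b1 : 24 * x ^ (11 / 6 : ℝ) ≤ 1 / 2 * x ^ (15 / 8 : ℝ) := by
    have e1 : x ^ (15 / 8 : ℝ) = x ^ (11 / 6 : ℝ) * x ^ (1 / 24 : ℝ) := by
      rw [← Real.rpow_add hx0]
      norm_num
    have e2 : 0 ≤ x ^ (11 / 6 : ℝ) := by positivity
    rw [e1]
    nlinarith
  have b2 : 3 * x ^ (3 / 2 : ℝ) ≤ 1 / 2 * x ^ (15 / 8 : ℝ) := by
    have e1 : x ^ (15 / 8 : ℝ) = x ^ (3 / 2 : ℝ) * x ^ (3 / 8 : ℝ) := by
      rw [← Real.rpow_add hx0]
      norm_num
    have e2 : 0 ≤ x ^ (3 / 2 : ℝ) := by positivity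
    rw [e1]
    nlinarith
  refine ⟨hx64, by linarith, ?_⟩
  have e : x ^ (15 / 8 : ℝ) = x ^ (3 / 2 : ℝ) * x ^ (3 / 8 : ℝ) := by
    rw [← Real.rpow_add hx0]
    norm_num
  rw [e]
  have h5 : 0 ≤ x ^ (3 / 2 : ℝ) := by positivity
  have h6 : 4 * (6 * Real.log x + 7) ≤ x ^ (3 / 8 : ℝ) := by linarith
  calc 4 * x ^ (3 / 2 : ℝ) * (6 * Real.log x + 7) = x ^ (3 / 2 : ℝ) * (4 * (6 * Real.log x + 7)) := by
        ring
    _ ≤ _ := mul_le_mul_of_nonneg_left h6 h5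

theorem SQB : SQB_stmt := by
  obtain ⟨x₀, hx₀⟩ := SQB_ev
  refine ⟨⌈x₀⌉₊, fun N hN n hn => ?_⟩
  have hNx : x₀ ≤ N := (Nat.le_ceil _).trans (by exact_mod_cast hN)
  obtain ⟨h64, hA, hB⟩ := hx₀ N hNx
  rw [mem_Ico] at hn
  have hN0 : (0 : ℝ) < N := by linarith
  have hNpos : 0 < N := by exact_mod_cast hN0
  have hN64 : 64 ≤ N := by exact_mod_cast h64
  -- the root bound
  obtain ⟨Y, hY⟩ : ∃ Y : ℕ, Y = Nat.sqrt (9 * N ^ 3) := ⟨_, rfl⟩
  have hn3 : (n + 1) ^ 3 ≤ 8 * N ^ 3 := by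
    calc (n + 1) ^ 3 ≤ (2 * N) ^ 3 := Nat.pow_le_pow_left (by omega) 3
      _ = 8 * N ^ 3 := by ring
  have hN3 : 6 ≤ N ^ 3 := by
    calc 6 ≤ N := by omega
      _ = N ^ 1 := (pow_one _).symm
      _ ≤ N ^ 3 := Nat.pow_le_pow_right hNpos (by norm_num)
  have hYR : (Y : ℝ) ≤ 3 * (N : ℝ) ^ (3 / 2 : ℝ) := by
    have h1 : Y * Y ≤ 9 * N ^ 3 := by rw [hY]; exact Nat.sqrt_le _
    have h2 : (Y : ℝ) ^ 2 ≤ (3 * (N : ℝ) ^ (3 / 2 : ℝ)) ^ 2 := by
      rw [mul_pow, ← Real.rpow_natCast ((N : ℝ) ^ (3 / 2 : ℝ)) 2, ← Real.rpow_mul hN0.le]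
      have e : (3 / 2 : ℝ) * ((2 : ℕ) : ℝ) = ((3 : ℕ) : ℝ) := by norm_num
      rw [e, Real.rpow_natCast, sq]
      have h3 : (Y : ℝ) * Y ≤ 9 * (N : ℝ) ^ 3 := by exact_mod_cast h1
      linarith
    exact (sq_le_sq₀ (Nat.cast_nonneg _) (by positivity)).1 h2
  have hWin : ((((n + 1) ^ 3 : ℕ) : ℝ) - ((n ^ 3 : ℕ) : ℝ)) ≤ 12 * (N : ℝ) ^ 2 := by
    push_cast
    have h1 : (n : ℝ) + 1 ≤ 2 * N := by
      have : n + 1 ≤ 2 * N := by omega
      exact_mod_cast this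
    have h2 : (0 : ℝ) ≤ n := Nat.cast_nonneg n
    nlinarith
  constructor
  · intro z hz _
    obtain ⟨m, hm⟩ : ∃ m : ℕ, m = ⌈(N : ℝ) ^ (1 / 6 : ℝ)⌉₊ := ⟨_, rfl⟩
    have hmR : (N : ℝ) ^ (1 / 6 : ℝ) ≤ m := by rw [hm]; exact Nat.le_ceil _
    have h2R : (2 : ℝ) ≤ (N : ℝ) ^ (1 / 6 : ℝ) := by
      have e : (2 : ℝ) = (64 : ℝ) ^ (1 / 6 : ℝ) := by
        rw [show (64 : ℝ) = 2 ^ (6 : ℝ) by norm_num, ← Real.rpow_mul (by norm_num)]
        norm_num
      rw [e]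
      exact Real.rpow_le_rpow (by norm_num) h64 (by norm_num)
    have hm2 : 2 ≤ m := by
      have : (2 : ℝ) ≤ m := h2R.trans hmR
      exact_mod_cast this
    have hsub : ((Win n).filter fun j : ℕ => ∃ q : ℕ, q.Prime ∧ z ≤ (q : ℝ) ∧ q ^ 2 ∣ j + 6) ⊆
        (Icc m Y).biUnion fun q => (Ioc (n ^ 3) ((n + 1) ^ 3)).filter fun j => q ^ 2 ∣ j + 6 := by
      intro j hj
      rw [mem_filter] at hj
      obtain ⟨hj1, q, hq, hzq, hqd⟩ := hj
      unfold Win at hj1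
      rw [mem_biUnion]
      refine ⟨q, ?_, mem_filter.2 ⟨hj1, hqd⟩⟩
      rw [mem_Icc]
      constructor
      · rw [hm]
        exact Nat.ceil_le.2 (hz.trans hzq)
      · rw [hY, Nat.le_sqrt]
        rw [mem_Ioc] at hj1
        have h1 := Nat.le_of_dvd (by omega) hqd
        calc q * q = q ^ 2 := (sq q).symm
          _ ≤ j + 6 := h1
          _ ≤ 9 * N ^ 3 := by omega
    have hc : (#((Win n).filter fun j : ℕ => ∃ q : ℕ, q.Prime ∧ z ≤ (q : ℝ) ∧ q ^ 2 ∣ j + 6) : ℝ) ≤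
        ∑ q ∈ Icc m Y, (#((Ioc (n ^ 3) ((n + 1) ^ 3)).filter fun j => q ^ 2 ∣ j + 6) : ℝ) := by
      have := (card_le_card hsub).trans card_biUnion_le
      exact_mod_cast this
    refine hc.trans ?_
    have hterm : ∀ q ∈ Icc m Y, (#((Ioc (n ^ 3) ((n + 1) ^ 3)).filter fun j => q ^ 2 ∣ j + 6) : ℝ) ≤
        12 * (N : ℝ) ^ 2 * (1 / (q : ℝ) ^ 2) + 1 := by
      intro q hq
      rw [mem_Icc] at hq
      have hq0 : 0 < q := by omega
      have h1 := SQB_dvd (n ^ 3) ((n + 1) ^ 3) (q ^ 2) (by positivity)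
        (Nat.pow_le_pow_left (by omega) 3)
      refine h1.trans ?_
      have hq0' : (0 : ℝ) < q := by exact_mod_cast hq0
      rw [mul_one_div]
      push_cast
      push_cast at hWin
      gcongr
    refine (sum_le_sum hterm).trans ?_
    rw [sum_add_distrib, ← mul_sum, sum_const, Nat.card_Icc, nsmul_eq_mul, mul_one]
    have hs := SQB_sum m Y hm2
    have hm1 : 1 / ((m : ℝ) - 1) ≤ 2 * (N : ℝ) ^ (-(1 / 6) : ℝ) := by
      rw [Real.rpow_neg hN0.le, ← div_eq_mul_inv, div_le_div_iff₀ (by linarith) (by positivity)]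
      linarith
    have hcY : ((Y + 1 - m : ℕ) : ℝ) ≤ Y := by
      exact_mod_cast (by omega : Y + 1 - m ≤ Y)
    have e : 12 * (N : ℝ) ^ 2 * (2 * (N : ℝ) ^ (-(1 / 6) : ℝ)) = 24 * (N : ℝ) ^ (11 / 6 : ℝ) := by
      have : (N : ℝ) ^ 2 * (N : ℝ) ^ (-(1 / 6) : ℝ) = (N : ℝ) ^ (11 / 6 : ℝ) := by
        rw [← Real.rpow_natCast (N : ℝ) 2, ← Real.rpow_add hN0]
        norm_num
      rw [← this]
      ring
    have hfirst : 12 * (N : ℝ) ^ 2 * ∑ q ∈ Icc m Y, 1 / ((q : ℝ) ^ 2) ≤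
        24 * (N : ℝ) ^ (11 / 6 : ℝ) := by
      rw [← e]
      exact mul_le_mul_of_nonneg_left (hs.trans hm1) (by positivity)
    linarith
  · -- prime powers
    obtain ⟨K, hK⟩ : ∃ K : ℕ, K = Nat.log 2 (8 * N ^ 3) := ⟨_, rfl⟩
    have hsub : ((Win n).filter fun j : ℕ => ¬ j.Prime ∧ vonMangoldt j ≠ 0) ⊆
        ((range (Y + 1)) ×ˢ (range (K + 1))).image (fun w => w.1 ^ w.2) := by
      intro j hj
      rw [mem_filter] at hj
      obtain ⟨hj1, hjp, hjL⟩ := hj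
      unfold Win at hj1
      rw [mem_Ioc] at hj1
      rw [vonMangoldt_ne_zero_iff] at hjL
      obtain ⟨p, k, hp, hk, rfl⟩ := (isPrimePow_nat_iff _).1 hjL
      have hk2 : 2 ≤ k := by
        by_contra h
        have : k = 1 := by omega
        subst this
        rw [pow_one] at hjp
        exact hjp hp
      rw [mem_image]
      refine ⟨(p, k), ?_, rfl⟩
      have hle : p ^ k ≤ 8 * N ^ 3 := hj1.2.trans hn3
      rw [mem_product, mem_range, mem_range]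
      constructor
      · rw [Nat.lt_succ_iff, hY, Nat.le_sqrt]
        calc p * p = p ^ 2 := (sq p).symm
          _ ≤ p ^ k := Nat.pow_le_pow_right hp.pos hk2
          _ ≤ 8 * N ^ 3 := hle
          _ ≤ 9 * N ^ 3 := by omega
      · rw [Nat.lt_succ_iff, hK]
        apply Nat.le_log_of_pow_le (by norm_num)
        exact (Nat.pow_le_pow_left hp.two_le k).trans hle
    have hc : #((Win n).filter fun j : ℕ => ¬ j.Prime ∧ vonMangoldt j ≠ 0) ≤ (Y + 1) * (K + 1) := by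
      refine (card_le_card hsub).trans (card_image_le.trans ?_)
      rw [card_product, card_range, card_range]
    have hcR : (#((Win n).filter fun j : ℕ => ¬ j.Prime ∧ vonMangoldt j ≠ 0) : ℝ) ≤
        ((Y : ℝ) + 1) * ((K : ℝ) + 1) := by exact_mod_cast hc
    refine hcR.trans (le_trans ?_ hB)
    have hKR : (K : ℝ) + 1 ≤ 6 * Real.log N + 7 := by
      have h1 : (2 : ℝ) ^ K ≤ 8 * (N : ℝ) ^ 3 := by
        have : 2 ^ K ≤ 8 * N ^ 3 := by
          rw [hK]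
          exact Nat.pow_log_le_self 2 (by positivity)
        exact_mod_cast this
      have h2 : (K : ℝ) * Real.log 2 ≤ 3 * Real.log 2 + 3 * Real.log N := by
        have h3 := Real.log_le_log (by positivity) h1
        rw [Real.log_pow, Real.log_mul (by norm_num) (by positivity), Real.log_pow,
          show (8 : ℝ) = 2 ^ 3 by norm_num, Real.log_pow] at h3
        push_cast at h3
        exact h3
      have h4 := Real.log_two_gt_d9
      have h5 := Real.log_two_lt_d9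
      have hlN : 0 ≤ Real.log N := Real.log_natCast_nonneg N
      have h6 : (0 : ℝ) ≤ K := Nat.cast_nonneg K
      nlinarith
    have hN32 : 1 ≤ (N : ℝ) ^ (3 / 2 : ℝ) := Real.one_le_rpow (by linarith) (by norm_num)
    calc ((Y : ℝ) + 1) * ((K : ℝ) + 1) ≤ (4 * (N : ℝ) ^ (3 / 2 : ℝ)) * (6 * Real.log N + 7) := by
          apply mul_le_mul _ hKR (by positivity) (by positivity)
          linarith
      _ = _ := by ring

end Pool.Agent.CH
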